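import Pool.Agent.Helper31K9.BU.AsmC
import Pool.Agent.Helper31K9.BU.Gen
import Pool.Agent.Helper31K9.BU.Hoef
import Pool.Agent.Helper31K9.BU.Place
import Pool.Agent.Helper31K9.BU.Base

/-!
# Single levels of high complexity that survive deletions, insertions and random sampling

The lines are `y = a l * x + B l`, `l : Fin n`. Definitions:

* `Simple a B`: no two of the lines coincide and no three pass through a common point;
  `level a B k x`: the height of the `(k+1)`-st lowest line above `x`; `psi a B k`: the number of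
  abscissae near which the `k`-level does not follow a single line, i.e. the number of vertices of
  the `k`-level (`Pool/Agent/Results/MP_a08d0a_co/SmoothedLevel.lean`),
* `Near a B a' B' t`: the family `a', B'` arises from the family `a, B` by deleting at most `t` lines
  and inserting at most `t` lines (`Pool/Agent/Helper31K9/BU/St.lean`),
* `sub f R`: for a set `R` of indices, the family `f` restricted to `R`
  (`Pool/Agent/Y344/KD/Lines.lean`); `sub a R`, `sub B R` are the lines with index in `R`.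
-/

set_option autoImplicit false

namespace Pool.Agent.Results.MP_a08d0a_co.StableLevels

open Finset
open Pool.Agent.Results.MP_a08d0a_co.SmoothedLevel (Simple level psi)
open Pool.Agent.Y344.KD (sub)
open Pool.Agent.Helper31K9.BU (Near)

/-- (1) Let `D` be large, `16 (D + 1) ≤ k ≤ n / 2`. There is a simple arrangement of `n` lines such
that for every simple arrangement which arises from it by deleting at most `k / (32 (D + 1))` lines
and inserting at most `k / (32 (D + 1))` lines, and for all `k'` with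
`|k' - k| ≤ k / (16 (D + 1))`, the `k'`-level has at least `(n / 8) D ^ (1 / (log log D) ^ 5)`
vertices.

(2) Let `k` be large, `k ≤ n / 2`. There is a simple arrangement of `n` lines such that for all but
at most `2 ^ n exp (- k ^ (1 / 3))` of its `2 ^ n` subarrangements the `⌊k / 2⌋`-level has at least
`n k ^ (1 / (log log k) ^ 6)` vertices. -/
theorem result :
    (∃ D₀ : ℕ, ∀ D n k : ℕ, D₀ ≤ D → 16 * (D + 1) ≤ k → 2 * k ≤ n →
      ∃ a B : Fin n → ℝ, Simple a B ∧
        ∀ (N : ℕ) (a' B' : Fin N → ℝ), Simple a' B' → Near a B a' B' (k / (32 * (D + 1))) →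
          ∀ k' : ℕ, k ≤ k' + k / (16 * (D + 1)) → k' ≤ k + k / (16 * (D + 1)) →
            psi a' B' k' ≠ ⊤ ∧
            (n : ℝ) / 8 * (D : ℝ) ^ (1 / Real.log (Real.log (D : ℝ)) ^ 5) ≤
              ((psi a' B' k').toNat : ℝ)) ∧
    ∃ k₀ : ℕ, ∀ n k : ℕ, k₀ ≤ k → 2 * k ≤ n →
      ∃ a B : Fin n → ℝ, Simple a B ∧
        ((#{R : Finset (Fin n) | ¬ (psi (sub a R) (sub B R) (k / 2) ≠ ⊤ ∧
            (n : ℝ) * (k : ℝ) ^ (1 / Real.log (Real.log (k : ℝ)) ^ 6) ≤
              ((psi (sub a R) (sub B R) (k / 2)).toNat : ℝ))} : ℕ) : ℝ) ≤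
          2 ^ n * Real.exp (-(k : ℝ) ^ (1 / 3 : ℝ)) := by
  classical
  have hg := Pool.Agent.Helper31K9.BU.gen (Pool.Agent.Helper31K9.BU.core
    Pool.Agent.Helper31K9.BU.cont Pool.Agent.Helper31K9.BU.finb)
  refine ⟨Pool.Agent.Helper31K9.BU.asmA Pool.Agent.Helper31K9.BU.base
    Pool.Agent.Helper31K9.BU.place Pool.Agent.Helper31K9.BU.finb hg
    Pool.Agent.Helper31K9.BU.sum, ?_⟩
  obtain ⟨k₀, h⟩ := Pool.Agent.Helper31K9.BU.asmC Pool.Agent.Helper31K9.BU.base
    Pool.Agent.Helper31K9.BU.place Pool.Agent.Helper31K9.BU.finb hg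
    Pool.Agent.Helper31K9.BU.sum Pool.Agent.Helper31K9.BU.hoef
  refine ⟨k₀, fun n k hk hn => ?_⟩
  obtain ⟨a, B, hS, h2⟩ := h n k hk hn
  refine ⟨a, B, hS, ?_⟩
  convert h2

end Pool.Agent.Results.MP_a08d0a_co.StableLevels
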