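import Pool.Agent.Helper48K9.FD.All

/-!
# The maximal complexity of a single level of an arrangement of lines with few directions

`height`, `level`, `kLevel`, `IsVertex` and `complexity` are defined in
`Pool/Agent/KLev/Levels.lean` (namespace `KLev.Levels`): a line is a pair (slope, intercept), the
`k`-level is the closure of the set of points on the lines with exactly `k` lines strictly below,
and its complexity is the number of the points where it passes from one line to another.
-/

namespace Pool.Agent.Results.MP_a08d0a_co.DirectionsSharp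

open KLev.Levels

/-- the number of distinct slopes of the lines of `Γ` -/
noncomputable def directions (Γ : Finset (ℝ × ℝ)) : ℕ :=
  open Classical in (Γ.image Prod.fst).card

/-- no three lines of `Γ` pass through a common point -/
def NoThree (Γ : Finset (ℝ × ℝ)) : Prop :=
  ∀ l ∈ Γ, ∀ m ∈ Γ, ∀ j ∈ Γ, l ≠ m → l ≠ j → m ≠ j →
    ∀ x : ℝ, ¬ (height l x = height m x ∧ height m x = height j x)

/-- **Theorem.** The maximal complexity of the `k`-level of `n` lines with at most `D` directions
is `(2 + o(1)) (D - 1) min (k, n - k)`, uniformly for `2 ≤ D ≤ c log min (k, n - k)`, `c → 0`. -/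
theorem result (ε : ℝ) (hε : 0 < ε) : ∃ C : ℕ, ∀ D : ℕ, 2 ≤ D → ∀ n k : ℕ, C ^ D ≤ k →
    k + C ^ D ≤ n →
    (∀ Γ : Finset (ℝ × ℝ), Γ.card = n → directions Γ ≤ D →
      (complexity Γ k : ℝ) ≤ (2 + ε) * ((D:ℝ) - 1) * (min k (n - k) : ℕ)) ∧
    ∃ Γ : Finset (ℝ × ℝ), Γ.card = n ∧ directions Γ ≤ D ∧ NoThree Γ ∧
      (2 - ε) * ((D:ℝ) - 1) * (min k (n - k) : ℕ) ≤ (complexity Γ k : ℝ) :=
  Pool.Agent.Helper48K9.FD.main ε hε

end Pool.Agent.Results.MP_a08d0a_co.DirectionsSharp
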