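import Pool.Agent.Helper31K9.SR.Law
import Pool.Agent.Helper31K9.SR.Gp
import Pool.Agent.Helper31K9.SR.Win
import Pool.Agent.Helper31K9.SR.Sup
import Pool.Agent.Helper31K9.SR.Loc
import Pool.Agent.Helper31K9.SR.Thr
import Pool.Agent.Helper31K9.SR.Mkv
import Pool.Agent.Helper31K9.SR.Sim
import Pool.Agent.Helper31K9.SR.Exp
import Pool.Agent.Helper86K9.SR.Hub
import Pool.Agent.Helper86K9.SR.Lim
import Pool.Agent.Helper86K9.SR.Lsc
import Pool.Agent.Helper86K9.SR.Lsi
import Pool.Agent.Helper31K9.SR.FouE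
import Pool.Agent.Helper31K9.SR.LovE
import Pool.Agent.Helper31K9.SR.LawA
import Pool.Agent.Helper31K9.SR.Rnk
import Pool.Agent.Helper31K9.SR.RatE
import Pool.Agent.Helper31K9.SR.Lnp
import Pool.Agent.Helper31K9.SR.LnpE
import Pool.Agent.Helper31K9.SR.Pon
import Pool.Agent.Helper31K9.SR.SmoE
import Pool.Agent.Helper31K9.SR.Gau
import Pool.Agent.Helper31K9.SR.Fiv
import Pool.Agent.Helper31K9.SR.Log

/-!
# Single levels of independent random lines with different laws

A line is a pair `P l = (slope, intercept)`; `sl P`, `ic P` are the slopes and the intercepts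
(`Pool/Agent/Results/MP_a08d0a_co/IidLevel.lean`). Definitions:

* `Simple a B`: no two of the lines `y = a l * x + B l` coincide and no three pass through a common
  point; `psi a B k`: the number of abscissae near which the `k`-level (the height of the `(k+1)`-st
  lowest line) does not follow a single line, i.e. the number of vertices of the `k`-level
  (`Pool/Agent/Results/MP_a08d0a_co/IidLevel.lean`),
* `mean μ x y`, `var μ x y`: expectation and variance of the number of lines below the point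
  `(x, y)` for independent lines with the laws `μ l` (`Pool/Agent/Helper31K9/SR/St.lean`),
* `mix δ ν μ₀ l = (1 - δ) ν l + δ μ₀` (`Pool/Agent/Helper31K9/SR/St.lean`),
* `psiOn a B k I`: the number of vertices of the `k`-level with abscissa in `I`
  (`Pool/Agent/Helper31K9/SR/St3.lean`); `TameUpTo e D ν`: `ν` has a density which is at most
  `D (G (1 - G) + e)`, where `G` is the distribution function of `ν`
  (`Pool/Agent/Helper31K9/SR/St5.lean`); `normal b σ`: the normal law with mean `b` and standard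
  deviation `σ` (`Pool/Agent/Helper31K9/SR/Fiv.lean`),
* `LN μ`: the lines of the plane of the pairs (slope, intercept) are null sets of `μ`
  (`Pool/Agent/H189R2/Iid/Gen.lean`).
-/

set_option autoImplicit false

namespace Pool.Agent.Results.MP_a08d0a_co.IndependentLines

open MeasureTheory
open Pool.Agent.H189R2.Iid (LN)
open Pool.Agent.Results.MP_a08d0a_co.IidLevel (Simple psi sl ic)
open Pool.Agent.Helper31K9.SR (mean var mix psiOn TameUpTo normal)
open scoped ENNReal

/-- (1) There is a constant `C` such that for independent random lines with arbitrary, possibly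
different laws without mass on the lines of the dual plane: if `1 ≤ v ≤ k` and the number of lines
below each point with mean within `k / 2 + 1` of `k` has variance at least `v`, then the expected
complexity of the `k`-level is at most `C n (k + 1) ^ (1 / 3) / v ^ (1 / 6)`.

(2) There is a constant `C` such that for arbitrary laws `ν l` and an arbitrary law `μ₀` the
expected complexity of the `k`-level of independent lines with the laws `(1 - δ) ν l + δ μ₀` is at
most `C n ((min k (n - 1 - k) + 1) / δ) ^ (1 / 6)`.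

(3) For small `δ` and `δ n ≥ 1` there are `n` given lines such that, if each of them is replaced
with probability `δ` by a random line with any common law without mass on the lines of the dual
plane, then the expected complexity of each `k`-level with `|k - n / 2| ≤ δ n` is at least
`(n / 16) (1 / δ) ^ (1 / (log log (1 / δ)) ^ 6)`.

(4) There is a constant `C` such that for given slopes `a l` with differences at most `A` and
independent random intercepts with densities at most `D (G (1 - G) + 1 / n)` the expected number of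
vertices of the `k`-level with abscissa in a given open interval of length `X` is at most
`C (n (k + 1) ^ (1 / 6) + (n (k + 1) ^ (1 / 3)) ^ (6 / 7) (A D X) ^ (1 / 7))`.

(5) There is a constant `C` such that the same expectation is at most
`C (n (k + 1) ^ (1 / 6) + (n (k + 1) ^ (1 / 3)) ^ (6 / 7) (A X √(log n) / σ) ^ (1 / 7))` if the
intercepts are given numbers `b l` plus independent Gaussian noise with standard deviation `σ`.

(6) The logistic law with scale `1 / D` and any centre satisfies the condition of (4). -/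
theorem result :
    (∃ C : ℝ, 0 < C ∧ ∀ (n : ℕ) (μ : Fin n → Measure (ℝ × ℝ)),
      (∀ l, IsProbabilityMeasure (μ l)) → (∀ l, LN (μ l)) → ∀ (k : ℕ) (v : ℝ), k < n →
      1 ≤ v → v ≤ k → (∀ x y : ℝ, |mean μ x y - k| ≤ (k : ℝ) / 2 + 1 → v ≤ var μ x y) →
      ∫⁻ P, (psi (sl P) (ic P) k : ℝ≥0∞) ∂Measure.pi μ ≤
        ENNReal.ofReal (C * n * ((k : ℝ) + 1) ^ (1 / 3 : ℝ) / v ^ (1 / 6 : ℝ))) ∧
    (∃ C : ℝ, 0 < C ∧ ∀ (n : ℕ) (ν : Fin n → Measure (ℝ × ℝ)) (μ₀ : Measure (ℝ × ℝ)) (δ : ℝ),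
      (∀ l, IsProbabilityMeasure (ν l)) → IsProbabilityMeasure μ₀ → 0 < δ → δ ≤ 1 → ∀ k < n,
      Measurable (fun P : Fin n → ℝ × ℝ => (psi (sl P) (ic P) k : ℝ≥0∞)) ∧
      ∫⁻ P, (psi (sl P) (ic P) k : ℝ≥0∞) ∂Measure.pi (mix δ ν μ₀) ≤
        ENNReal.ofReal (C * n * (((min k (n - 1 - k) : ℕ) + 1 : ℝ) / δ) ^ (1 / 6 : ℝ))) ∧
    (∃ δ₀ : ℝ, 0 < δ₀ ∧ ∀ δ : ℝ, 0 < δ → δ ≤ δ₀ → ∀ n : ℕ, 1 ≤ δ * n →
      ∃ a B : Fin n → ℝ, Simple a B ∧ ∀ μ₀ : Measure (ℝ × ℝ), IsProbabilityMeasure μ₀ → LN μ₀ →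
        ∀ k : ℕ, |(k : ℝ) - n / 2| ≤ δ * n →
          ENNReal.ofReal (n / 16 * (1 / δ) ^ (1 / Real.log (Real.log (1 / δ)) ^ 6)) ≤
            ∫⁻ P, (psi (sl P) (ic P) k : ℝ≥0∞)
              ∂Measure.pi (mix δ (fun l => Measure.dirac (a l, B l)) μ₀)) ∧
    (∃ C : ℝ, 0 < C ∧ ∀ (n : ℕ) (a : Fin n → ℝ) (ν : Fin n → Measure ℝ) (A D c X : ℝ),
      (∀ l, IsProbabilityMeasure (ν l)) → (∀ l, TameUpTo (1 / n) D (ν l)) → 0 < D → 0 < A →
      0 < X → (∀ i j, a i - a j ≤ A) → ∀ k < n,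
      Measurable (fun B : Fin n → ℝ => (psiOn a B k (Set.Ioo c (c + X)) : ℝ≥0∞)) ∧
      ∫⁻ B, (psiOn a B k (Set.Ioo c (c + X)) : ℝ≥0∞) ∂Measure.pi ν ≤
        ENNReal.ofReal (C * (n * ((k : ℝ) + 1) ^ (1 / 6 : ℝ) +
          (n * ((k : ℝ) + 1) ^ (1 / 3 : ℝ)) ^ (6 / 7 : ℝ) * (A * D * X) ^ (1 / 7 : ℝ)))) ∧
    (∃ C : ℝ, 0 < C ∧ ∀ (n : ℕ) (a b : Fin n → ℝ) (A σ c X : ℝ), 0 < σ → 0 < A → 0 < X →
      (∀ i j, a i - a j ≤ A) → 2 ≤ n → ∀ k < n,
      ∫⁻ B, (psiOn a B k (Set.Ioo c (c + X)) : ℝ≥0∞) ∂Measure.pi (fun l => normal (b l) σ) ≤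
        ENNReal.ofReal (C * (n * ((k : ℝ) + 1) ^ (1 / 6 : ℝ) +
          (n * ((k : ℝ) + 1) ^ (1 / 3 : ℝ)) ^ (6 / 7 : ℝ) *
            (A * X * Real.sqrt (Real.log n) / σ) ^ (1 / 7 : ℝ)))) ∧
    ∀ D b : ℝ, 0 < D → ∃ ν : Measure ℝ, IsProbabilityMeasure ν ∧
      (∀ e : ℝ, 0 ≤ e → TameUpTo e D ν) ∧
      ∀ t : ℝ, (ν (Set.Iio t)).toReal = 1 / (1 + Real.exp (-(D * (t - b)))) := by
  have hcnt := Pool.Agent.Helper31K9.SR.cnt Pool.Agent.Helper31K9.SR.law
    Pool.Agent.Helper31K9.SR.win (Pool.Agent.Helper31K9.SR.loc Pool.Agent.Helper31K9.SR.sup)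
  have hhiv := Pool.Agent.Helper31K9.SR.hiv Pool.Agent.Helper31K9.SR.lawa
    Pool.Agent.Helper31K9.SR.win (Pool.Agent.Helper31K9.SR.loc Pool.Agent.Helper31K9.SR.sup)
  have hlov := Pool.Agent.Helper31K9.SR.love Pool.Agent.Helper31K9.SR.lawa
    Pool.Agent.Helper31K9.SR.rnk Pool.Agent.Helper31K9.SR.rate Pool.Agent.Helper31K9.SR.pbi
    Pool.Agent.Helper31K9.SR.lnpe
  have hsmo := Pool.Agent.Helper31K9.SR.smoe Pool.Agent.Helper31K9.SR.lnpe
    Pool.Agent.Helper31K9.SR.gp hlov hhiv Pool.Agent.Helper31K9.SR.pon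
    Pool.Agent.Helper31K9.SR.opt
  have hfou := Pool.Agent.Helper31K9.SR.foue Pool.Agent.Helper86K9.SR.lsi hsmo
  refine ⟨Pool.Agent.Helper31K9.SR.one Pool.Agent.Helper31K9.SR.gp hcnt,
    Pool.Agent.Helper86K9.SR.lim Pool.Agent.Helper86K9.SR.lsc
      (Pool.Agent.Helper31K9.SR.con Pool.Agent.Helper31K9.SR.gp hcnt
        Pool.Agent.Helper86K9.SR.hub),
    Pool.Agent.Helper31K9.SR.thr Pool.Agent.Helper31K9.SR.sim Pool.Agent.Helper31K9.SR.mkv
      Pool.Agent.Helper31K9.SR.exp,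
    hfou, Pool.Agent.Helper31K9.SR.fiv Pool.Agent.Helper31K9.SR.gau hfou, ?_⟩
  intro D b hD
  obtain ⟨ν, h1, h2, h3⟩ := Pool.Agent.Helper31K9.SR.log D b hD
  refine ⟨ν, h1, fun e he => h2.trans ?_, h3⟩
  apply withDensity_mono
  refine Filter.Eventually.of_forall (fun t => ENNReal.ofReal_le_ofReal ?_)
  exact mul_le_mul_of_nonneg_left (by linarith) hD.le

end Pool.Agent.Results.MP_a08d0a_co.IndependentLines
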